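import Mathlib

/-!
Ideals on a regular uncountable cardinal: basic facts.
`K` is a well-ordered type of order type (the initial ordinal of) `κ`.
-/

set_option autoImplicit false

open Set
open Cardinal hiding univ

namespace Lay86

/-- a proper `κ`-complete ideal of subsets of `K` containing all singletons -/
structure IsIdeal {K : Type} (κ : Cardinal.{0}) (J : Set (Set K)) : Prop where
  down : ∀ X ∈ J, ∀ Y ⊆ X, Y ∈ J
  proper : univ ∉ J
  complete : ∀ S : Set (Set K), S ⊆ J → #S < κ → ⋃₀ S ∈ J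
  single : ∀ x, {x} ∈ J

/-- `J` is `lam`-saturated: there is no family of `lam` many `J`-positive sets with pairwise
intersections in `J` -/
def Saturated {K : Type} (lam : Cardinal.{0}) (J : Set (Set K)) : Prop :=
  ¬ ∃ A : Set (Set K), #A = lam ∧ (∀ X ∈ A, X ∉ J) ∧ ∀ X ∈ A, ∀ Y ∈ A, X ≠ Y → X ∩ Y ∈ J

/-- `K` is well-ordered in the type of the regular uncountable cardinal `κ` -/
structure IsK (K : Type) [LinearOrder K] [WellFoundedLT K] (κ : Cardinal.{0}) : Prop where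
  reg : κ.IsRegular
  unc : ℵ₀ < κ
  card : #K = κ
  iio : ∀ x : K, #(Iio x) < κ

/-- `A` is a subalgebra of `P(K)` which is regular (completely embedded) modulo `J`: every positive
set has a reduction to `A` -/
structure IsRegularSub {K : Type} (J : Set (Set K)) (A : Set (Set K)) : Prop where
  univ_mem : univ ∈ A
  compl_mem : ∀ a ∈ A, aᶜ ∈ A
  inter_mem : ∀ a ∈ A, ∀ b ∈ A, a ∩ b ∈ A
  reduct : ∀ X, X ∉ J → ∃ a ∈ A, a ∉ J ∧ ∀ b ∈ A, b ∉ J → b \ a ∈ J → b ∩ X ∉ J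

/-- `D` is dense in the subalgebra `A` modulo `J` -/
def IsDenseIn {K : Type} (J A D : Set (Set K)) : Prop :=
  D ⊆ A ∧ (∀ d ∈ D, d ∉ J) ∧ ∀ a ∈ A, a ∉ J → ∃ d ∈ D, d \ a ∈ J

section basics

variable {K : Type} {κ : Cardinal.{0}} {J : Set (Set K)}

theorem IsIdeal.iUnion (hJ : IsIdeal κ J) {ι : Type} (hι : #ι < κ) {X : ι → Set K}
    (hX : ∀ i, X i ∈ J) : (⋃ i, X i) ∈ J := by
  rw [← sUnion_range]
  apply hJ.complete
  · rintro _ ⟨i, rfl⟩; exact hX i
  · exact mk_range_le.trans_lt hι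

theorem IsIdeal.empty (hJ : IsIdeal κ J) (hκ : ℵ₀ < κ) : ∅ ∈ J := by
  have h := hJ.complete ∅ (empty_subset _) (by
    rw [mk_eq_zero]; exact (aleph0_pos).trans hκ)
  simpa using h

theorem IsIdeal.biUnion (hJ : IsIdeal κ J) {ι : Type} {s : Set ι} (hs : #s < κ) {X : ι → Set K}
    (hX : ∀ i ∈ s, X i ∈ J) : (⋃ i ∈ s, X i) ∈ J := by
  rw [biUnion_eq_iUnion]
  exact hJ.iUnion hs (fun i => hX i i.2)

theorem IsIdeal.union (hJ : IsIdeal κ J) (hκ : ℵ₀ < κ) {X Y : Set K} (hX : X ∈ J) (hY : Y ∈ J) :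
    X ∪ Y ∈ J := by
  rw [union_eq_iUnion]
  apply hJ.iUnion
  · exact (mk_lt_aleph0).trans hκ
  · intro b; cases b
    · exact hY
    · exact hX

theorem IsIdeal.iUnionNat (hJ : IsIdeal κ J) (hκ : ℵ₀ < κ) {X : ℕ → Set K} (hX : ∀ i, X i ∈ J) :
    (⋃ i, X i) ∈ J :=
  hJ.iUnion (by rw [mk_nat]; exact hκ) hX

theorem IsIdeal.pos_diff (hJ : IsIdeal κ J) (hκ : ℵ₀ < κ) {X N : Set K} (hX : X ∉ J)
    (hN : N ∈ J) : X \ N ∉ J := by
  intro h
  apply hX
  apply hJ.down _ (hJ.union hκ h hN)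
  intro x hx
  by_cases h : x ∈ N
  · exact Or.inr h
  · exact Or.inl ⟨hx, h⟩

theorem IsIdeal.pos_mono (hJ : IsIdeal κ J) {X Y : Set K} (hX : X ∉ J) (h : X ⊆ Y) : Y ∉ J :=
  fun hY => hX (hJ.down Y hY X h)

theorem IsIdeal.nonempty (hJ : IsIdeal κ J) (hκ : ℵ₀ < κ) {X : Set K} (hX : X ∉ J) :
    X.Nonempty := by
  by_contra h
  rw [not_nonempty_iff_eq_empty] at h
  rw [h] at hX
  exact hX (hJ.empty hκ)

/-- a function with fewer than `κ` values is constant on a positive subset -/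
theorem IsIdeal.pig (hJ : IsIdeal κ J) {ι : Type} (hι : #ι < κ) (g : K → ι) {X : Set K}
    (hX : X ∉ J) : ∃ v, {a | a ∈ X ∧ g a = v} ∉ J := by
  by_contra h
  push Not at h
  apply hX
  apply hJ.down _ (hJ.iUnion hι h)
  intro a ha
  exact mem_iUnion.mpr ⟨g a, ha, rfl⟩

/-- a function with fewer than `κ` values on `X` is constant on a positive subset -/
theorem IsIdeal.pigS (hJ : IsIdeal κ J) {ι : Type} {s : Set ι} (hs : #s < κ) (g : K → ι)
    {X : Set K} (hg : ∀ a ∈ X, g a ∈ s) (hX : X ∉ J) : ∃ v ∈ s, {a | a ∈ X ∧ g a = v} ∉ J := by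
  by_contra h
  push Not at h
  apply hX
  apply hJ.down _ (hJ.biUnion hs h)
  intro a ha
  exact mem_iUnion₂.mpr ⟨g a, hg a ha, ha, rfl⟩

/-- a positive set covered by fewer than `κ` many sets meets one of them in a positive set -/
theorem IsIdeal.cover (hJ : IsIdeal κ J) {ι : Type} (hι : #ι < κ) {Y : ι → Set K} {X : Set K}
    (hg : X ⊆ ⋃ i, Y i) (hX : X ∉ J) : ∃ i, X ∩ Y i ∉ J := by
  by_contra h
  push Not at h
  apply hX
  apply hJ.down _ (hJ.iUnion hι h)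
  intro a ha
  obtain ⟨i, hi⟩ := mem_iUnion.mp (hg ha)
  exact mem_iUnion.mpr ⟨i, ha, hi⟩

end basics

section order

variable {K : Type} [LinearOrder K] [WellFoundedLT K] {κ : Cardinal.{0}} {J : Set (Set K)}

theorem IsK.noMax (hK : IsK K κ) (x : K) : ∃ y, x < y := by
  by_contra h
  push Not at h
  have h1 : (univ : Set K) ⊆ insert x (Iio x) := by
    intro y _
    rcases (h y).eq_or_lt with rfl | h2
    · exact mem_insert _ _
    · exact mem_insert_of_mem _ h2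
  have h2 : #K ≤ #(Iio x) + 1 := by
    rw [← mk_univ]
    exact (mk_le_mk_of_subset h1).trans (mk_insert_le)
  have h3 : #(Iio x) + 1 < κ :=
    add_lt_of_lt hK.reg.aleph0_le (hK.iio x) (one_lt_aleph0.trans hK.unc)
  rw [hK.card] at h2
  exact absurd h3 (not_lt.mpr h2)

theorem IsK.iic (hK : IsK K κ) (x : K) : #(Iic x) < κ := by
  obtain ⟨y, hy⟩ := hK.noMax x
  exact (mk_le_mk_of_subset (fun z hz => lt_of_le_of_lt hz hy)).trans_lt (hK.iio y)

/-- a set of fewer than `κ` elements is bounded -/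
theorem IsK.bdd (hK : IsK K κ) {S : Set K} (hS : #S < κ) : ∃ b, ∀ s ∈ S, s < b := by
  by_contra h
  push Not at h
  have h1 : (univ : Set K) ⊆ ⋃ s ∈ S, Iic s := by
    intro y _
    obtain ⟨s, hs, hys⟩ := h y
    exact mem_iUnion₂.mpr ⟨s, hs, hys⟩
  have h2 : #(⋃ s ∈ S, Iic s : Set K) < κ := by
    rw [card_biUnion_lt_iff_forall_of_isRegular hK.reg hS]
    intro s _
    exact hK.iic s
  have h3 : #K ≤ #(⋃ s ∈ S, Iic s : Set K) := by
    rw [← mk_univ]; exact mk_le_mk_of_subset h1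
  rw [hK.card] at h3
  exact absurd h2 (not_lt.mpr h3)

theorem IsK.bddI (hK : IsK K κ) {ι : Type} (hι : #ι < κ) (f : ι → K) : ∃ b, ∀ i, f i < b := by
  obtain ⟨b, hb⟩ := hK.bdd (S := range f) (mk_range_le.trans_lt hι)
  exact ⟨b, fun i => hb _ ⟨i, rfl⟩⟩

omit [LinearOrder K] [WellFoundedLT K] in
theorem IsIdeal.small (hJ : IsIdeal κ J) {S : Set K} (hS : #S < κ) : S ∈ J := by
  have h := hJ.biUnion hS (X := fun x => {x}) (fun x _ => hJ.single x)
  simpa using h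

theorem IsIdeal.iic (hK : IsK K κ) (hJ : IsIdeal κ J) (x : K) : Iic x ∈ J := hJ.small (hK.iic x)

end order

end Lay86
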