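import Pool.Agent.H86.LAY.Incomp

/-!
Almost disjoint families and the cofinality of the critical point inside a small regular subalgebra.
-/

set_option autoImplicit false

open Set
open Cardinal hiding univ

namespace Lay86

variable {K : Type} [LinearOrder K] [WellFoundedLT K] {κ : Cardinal.{0}} {J : Set (Set K)}

/-- more than `κ` many eventually different functions -/
theorem exists_evd (hK : IsK K κ) : ∃ A : Set (K → K), κ < #A ∧
    ∀ f ∈ A, ∀ g ∈ A, f ≠ g → ∃ b, ∀ x, b ≤ x → f x ≠ g x := by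
  classical
  let S : Set (Set (K → K)) := {A | ∀ f ∈ A, ∀ g ∈ A, f ≠ g → ∃ b, ∀ x, b ≤ x → f x ≠ g x}
  obtain ⟨A, hA⟩ := zorn_subset S (by
    intro c hc hchain
    refine ⟨⋃₀ c, ?_, fun s hs => subset_sUnion_of_mem hs⟩
    rintro Z ⟨s, hs, hZ⟩ W ⟨t, ht, hW⟩ hne
    rcases hchain.total hs ht with hst | hst
    · exact (hc ht) Z (hst hZ) W hW hne
    · exact (hc hs) Z hZ W (hst hW) hne)
  refine ⟨A, ?_, hA.prop⟩
  by_contra hcon
  push Not at hcon
  obtain ⟨e⟩ : Nonempty (A ↪ K) := by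
    rw [← Cardinal.le_def, hK.card]; exact hcon
  have hval : ∀ x : K, ∃ v : K, ∀ f : A, e f < x → f.1 x ≠ v := by
    intro x
    by_contra h
    push Not at h
    have h1 : (Set.univ : Set K) ⊆ ⋃ f ∈ {f : A | e f < x}, {f.1 x} := by
      intro v _
      obtain ⟨f, hf, hfv⟩ := h v
      exact mem_iUnion₂.mpr ⟨f, hf, hfv.symm⟩
    have h2 : #{f : A | e f < x} < κ := by
      have h1 : #{f : A | e f < x} ≤ #(Iio x) := by
        apply mk_le_of_injective (f := fun W => (⟨e W.1, W.2⟩ : Iio x))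
        intro W V hWV
        have := congrArg Subtype.val hWV
        exact Subtype.ext (e.injective this)
      exact h1.trans_lt (hK.iio _)
    have h3 : #(⋃ f ∈ {f : A | e f < x}, {f.1 x} : Set K) ≤ #{f : A | e f < x} := by
      have : (⋃ f ∈ {f : A | e f < x}, {f.1 x} : Set K) = (fun f : A => f.1 x) '' {f | e f < x} := by
        ext v; simp [eq_comm]
      rw [this]
      exact mk_image_le
    have h4 : #K ≤ #(⋃ f ∈ {f : A | e f < x}, {f.1 x} : Set K) := by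
      rw [← mk_univ]; exact mk_le_mk_of_subset h1
    rw [hK.card] at h4
    exact absurd (lt_of_le_of_lt (h4.trans h3) h2) (lt_irrefl _)
  choose h hh using hval
  have hmem : insert h A ∈ S := by
    rintro f (rfl | hf) g (rfl | hg) hne
    · exact absurd rfl hne
    · obtain ⟨b, hb⟩ := hK.noMax (e ⟨g, hg⟩)
      exact ⟨b, fun x hx => (hh x ⟨g, hg⟩ (hb.trans_le hx)).symm⟩
    · obtain ⟨b, hb⟩ := hK.noMax (e ⟨f, hf⟩)
      exact ⟨b, fun x hx => (hh x ⟨f, hf⟩ (hb.trans_le hx))⟩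
    · exact hA.prop f hf g hg hne
  have hmemA : h ∈ A := hA.le_of_ge hmem (subset_insert _ _) (mem_insert _ _)
  obtain ⟨b, hb⟩ := hK.noMax (e ⟨h, hmemA⟩)
  exact hh b ⟨h, hmemA⟩ hb rfl

/-- more than `κ` many unbounded subsets of `K` with bounded pairwise intersections -/
theorem exists_ad (hK : IsK K κ) : ∃ (I : Type) (A : I → Set K), κ < #I ∧
    (∀ i, ∀ b, ∃ x ∈ A i, b < x) ∧ ∀ i j, i ≠ j → ∃ b, ∀ x, x ∈ A i → x ∈ A j → x < b := by
  obtain ⟨F, hF, hev⟩ := exists_evd hK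
  obtain ⟨p⟩ : Nonempty (K × K ≃ K) := by
    rw [← Cardinal.eq, mk_prod, lift_id, mul_eq_self]
    rw [hK.card]; exact hK.unc.le
  refine ⟨F, fun f => range (fun x => p (x, f.1 x)), hF, ?_, ?_⟩
  · intro f b
    by_contra h
    push Not at h
    have h1 : #K ≤ #(Iic b) := by
      apply mk_le_of_injective (f := fun x => (⟨p (x, f.1 x), h _ ⟨x, rfl⟩⟩ : Iic b))
      intro x y hxy
      have := p.injective (congrArg Subtype.val hxy)
      exact (Prod.mk.inj this).1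
    rw [hK.card] at h1
    exact absurd (hK.iic b) (not_lt.mpr h1)
  · intro f g hfg
    have hne : f.1 ≠ g.1 := fun h => hfg (Subtype.ext h)
    obtain ⟨b, hb⟩ := hev f.1 f.2 g.1 g.2 hne
    obtain ⟨c, hc⟩ := hK.bdd (S := (fun x => p (x, f.1 x)) '' Iio b)
      (mk_image_le.trans_lt (hK.iio b))
    refine ⟨c, ?_⟩
    rintro _ ⟨x, rfl⟩ ⟨y, hy⟩
    have h1 := p.injective hy
    rw [Prod.mk.injEq] at h1
    obtain ⟨rfl, h2⟩ := h1
    apply hc
    refine ⟨y, ?_, rfl⟩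
    by_contra h3
    exact hb y (not_lt.mp h3) h2.symm

/-- `γ` is a limit of an `ω`-sequence -/
def CofOm (c : K) : Prop := ∃ s : ℕ → K, (∀ n, s n < c) ∧ ∀ b < c, ∃ n, b < s n

theorem cof_ae (hK : IsK K κ) (hJ : IsIdeal κ J) {F : K → K} (hF : Incomp J F)
    {ρ : K → K → ℕ} {l : ℕ → Cardinal.{0}} (hρ : ∀ c n, #{d | d < c ∧ ρ c d ≤ n} ≤ l n)
    (hl : ∀ n, Order.succ (l n) < κ) {A D : Set (Set K)} (hA : IsRegularSub J A)
    (hD : IsDenseIn J A D) (hDκ : #D ≤ κ) (hE : ∀ d n, {a | d < F a ∧ ρ (F a) d ≤ n} ∈ A) :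
    {a | ¬ CofOm (F a)} ∈ J := by
  classical
  by_contra hbad
  obtain ⟨I, AD, hI, hunb, had⟩ := exists_ad hK
  let X : I → ℕ → Set K := fun f n =>
    {a | ∀ b < F a, ∃ d ∈ AD f, b < d ∧ d < F a ∧ ρ (F a) d ≤ n}
  -- claim 0
  have hc0 : ∀ f, {a | ∃ b < F a, ∀ d ∈ AD f, b < d → ¬ d < F a} ∈ J := by
    intro f
    by_contra hpos
    have hch : ∀ a, ∃ b, a ∈ {a | ∃ b < F a, ∀ d ∈ AD f, b < d → ¬ d < F a} →
        b < F a ∧ ∀ d ∈ AD f, b < d → ¬ d < F a := by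
      intro a
      by_cases h : ∃ b < F a, ∀ d ∈ AD f, b < d → ¬ d < F a
      · obtain ⟨b, hb⟩ := h
        exact ⟨b, fun _ => hb⟩
      · exact ⟨a, fun h' => absurd h' h⟩
    choose g hg using hch
    obtain ⟨b, hb⟩ := hF.press _ hpos g (fun a ha => (hg a ha).1)
    obtain ⟨d, hd, hbd⟩ := hunb f b
    apply hb
    apply hJ.down _ (hF.unb d)
    rintro a ⟨ha, rfl⟩
    exact not_lt.mp ((hg a ha).2 d hd hbd)
  -- claim 1
  have hc1 : ∀ f, ∃ n, X f n ∉ J := by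
    intro f
    have h1 := hJ.pos_diff hK.unc hbad (hc0 f)
    obtain ⟨n, hn⟩ := hJ.cover (ι := ℕ) (by rw [mk_nat]; exact hK.unc) (Y := X f) (by
      rintro a ⟨ha, ha0⟩
      by_contra hno
      rw [mem_iUnion] at hno
      push Not at hno
      apply ha
      have h2 : ∀ n, ∃ b < F a, ∀ d ∈ AD f, b < d → d < F a → ¬ ρ (F a) d ≤ n := by
        intro n
        have := hno n
        simp only [X, mem_ofPred_eq] at this
        push Not at this
        obtain ⟨b, hb, h⟩ := this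
        exact ⟨b, hb, fun d hd h1 h2 => not_le.mpr (h d hd h1 h2)⟩
      choose s hs1 hs2 using h2
      refine ⟨s, hs1, ?_⟩
      intro b hb
      by_contra hno2
      push Not at hno2
      apply ha0
      refine ⟨b, hb, ?_⟩
      intro d hd hbd hdF
      exact hs2 (ρ (F a) d) d hd ((hno2 _).trans_lt hbd) hdF le_rfl) h1
    exact ⟨n, hJ.pos_mono hn inter_subset_right⟩
  choose nn hnn using hc1
  have hred : ∀ f, ∃ a ∈ A, a ∉ J ∧ ∀ b ∈ A, b ∉ J → b \ a ∈ J → b ∩ X f (nn f) ∉ J :=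
    fun f => hA.reduct _ (hnn f)
  choose aa haA haJ hared using hred
  have hdd : ∀ f, ∃ d : D, d.1 \ aa f ∈ J := by
    intro f
    obtain ⟨d, hd, h⟩ := hD.2.2 (aa f) (haA f) (haJ f)
    exact ⟨⟨d, hd⟩, h⟩
  choose dd hdd using hdd
  obtain ⟨⟨n, d⟩, hfib⟩ := infinite_pigeonhole_card (fun f : I => (nn f, dd f)) (Order.succ κ)
    (Order.succ_le_of_lt hI) (hK.unc.le.trans (Order.le_succ κ)) (by
      rw [(isRegular_succ hK.unc.le).cof_ord]
      apply Order.lt_succ_of_le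
      rw [mk_prod, lift_id, lift_id, mk_nat]
      calc ℵ₀ * #D ≤ κ * κ := mul_le_mul' hK.unc.le hDκ
        _ = κ := mul_eq_self hK.unc.le)
  -- claim 3
  have hc3 : ∀ f ∈ (fun f : I => (nn f, dd f)) ⁻¹' {(n, d)}, d.1 \ X f n ∈ J := by
    intro f hf
    have hf' : nn f = n ∧ dd f = d := Prod.mk.inj hf
    have hda := hdd f
    rw [hf'.2] at hda
    have hredf := hared f
    rw [hf'.1] at hredf
    by_contra hpos
    have hch : ∀ a, ∃ b, a ∈ d.1 \ X f n →
        b < F a ∧ ∀ d ∈ AD f, b < d → d < F a → ¬ ρ (F a) d ≤ n := by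
      intro a
      by_cases h : a ∈ d.1 \ X f n
      · have := h.2
        simp only [X, mem_ofPred_eq] at this
        push Not at this
        obtain ⟨b, hb, h3⟩ := this
        exact ⟨b, fun _ => ⟨hb, fun d hd h1 h2 => not_le.mpr (h3 d hd h1 h2)⟩⟩
      · exact ⟨a, fun h' => absurd h' h⟩
    choose g hg using hch
    obtain ⟨b0, hb0⟩ := hF.press _ hpos g (fun a ha => (hg a ha).1)
    obtain ⟨a', ha'A, ha'J, ha'⟩ := hA.reduct _ hb0
    have hE0 : ∀ e ∈ AD f, b0 < e → a' ∩ {a | e < F a ∧ ρ (F a) e ≤ n} ∈ J := by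
      intro e he hbe
      by_contra h
      have h1 := ha' _ (hA.inter_mem _ ha'A _ (hE e n)) h (by
        apply hJ.down _ (hJ.empty hK.unc)
        rintro x ⟨hx1, hx2⟩
        exact hx2 hx1.1)
      apply h1
      apply hJ.down _ (hJ.empty hK.unc)
      rintro x ⟨⟨_, hx1⟩, hx2, hx3⟩
      have := (hg x hx2).2 e he (hx3 ▸ hbe) hx1.1
      exact this hx1.2
    have had' : a' \ d.1 ∈ J := by
      by_contra h
      have hdA : d.1ᶜ ∈ A := hA.compl_mem _ (hD.1 d.2)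
      have h1 := ha' (a' ∩ d.1ᶜ) (hA.inter_mem _ ha'A _ hdA) (by rwa [← sdiff_eq]) (by
        apply hJ.down _ (hJ.empty hK.unc)
        rintro x ⟨hx1, hx2⟩
        exact hx2 hx1.1)
      apply h1
      apply hJ.down _ (hJ.empty hK.unc)
      rintro x ⟨⟨_, hx1⟩, hx2, _⟩
      exact hx1 hx2.1
    have ha'a : a' \ aa f ∈ J := by
      apply hJ.down _ (hJ.union hK.unc had' hda)
      rintro x ⟨hx1, hx2⟩
      by_cases h : x ∈ d.1
      · exact Or.inr ⟨h, hx2⟩
      · exact Or.inl ⟨hx1, h⟩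
    have hpos2 := hJ.pos_diff hK.unc (hredf a' ha'A ha'J ha'a) (hF.unb b0)
    have hch2 : ∀ a, ∃ e, a ∈ (a' ∩ X f n) \ {a | F a ≤ b0} →
        e ∈ AD f ∧ b0 < e ∧ e < F a ∧ ρ (F a) e ≤ n := by
      intro a
      by_cases h : a ∈ (a' ∩ X f n) \ {a | F a ≤ b0}
      · obtain ⟨e, he⟩ := h.1.2 b0 (not_le.mp h.2)
        exact ⟨e, fun _ => he⟩
      · exact ⟨a, fun h' => absurd h' h⟩
    choose g2 hg2 using hch2
    obtain ⟨e0, he0⟩ := hF.press _ hpos2 g2 (fun a ha => (hg2 a ha).2.2.1)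
    obtain ⟨x, hx, hxe⟩ := hJ.nonempty hK.unc he0
    have hx1 := hg2 x hx
    rw [hxe] at hx1
    apply he0
    apply hJ.down _ (hE0 e0 hx1.1 hx1.2.1)
    rintro y ⟨hy, hye⟩
    have hy1 := hg2 y hy
    rw [hye] at hy1
    exact ⟨hy.1.1, hy1.2.2⟩
  -- claim 4
  obtain ⟨T, hTsub, hT⟩ := le_mk_iff_exists_subset.mp
    (((hl n).le.trans (Order.le_succ κ)).trans hfib)
  have hTκ : #T < κ := by rw [hT]; exact hl n
  have hbb : ∀ ij : T × T, ∃ b, ij.1 ≠ ij.2 → ∀ x, x ∈ AD ij.1.1 → x ∈ AD ij.2.1 → x < b := by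
    intro ij
    by_cases h : ij.1 = ij.2
    · obtain ⟨b, _⟩ := hJ.nonempty hK.unc hJ.proper
      exact ⟨b, fun h' => absurd h h'⟩
    · obtain ⟨b, hb⟩ := had ij.1.1 ij.2.1 (fun h' => h (Subtype.ext h'))
      exact ⟨b, fun _ => hb⟩
  choose bb hbb using hbb
  obtain ⟨β, hβ⟩ := hK.bddI (ι := T × T) (by
    rw [mk_prod, lift_id]
    exact mul_lt_of_lt hK.unc.le hTκ hTκ) bb
  have hU : (⋃ f ∈ T, d.1 \ X f n) ∈ J := hJ.biUnion hTκ (fun f hf => hc3 f (hTsub hf))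
  obtain ⟨a, ⟨⟨had1, haU⟩, haβ⟩⟩ := hJ.nonempty hK.unc
    (hJ.pos_diff hK.unc (hJ.pos_diff hK.unc (hD.2.1 d.1 d.2) hU) (hF.unb β))
  have haβ' : β < F a := not_le.mp haβ
  have hXa : ∀ f : T, ∃ e ∈ AD f.1, β < e ∧ e < F a ∧ ρ (F a) e ≤ n := by
    intro f
    have : a ∈ X f.1 n := by
      by_contra h
      exact haU (mem_iUnion₂.mpr ⟨f.1, f.2, had1, h⟩)
    exact this β haβ'
  choose e he1 he2 he3 using hXa
  have hinj : Function.Injective (fun f : T => (⟨e f, he3 f⟩ : {d | d < F a ∧ ρ (F a) d ≤ n})) := by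
    intro f g hfg
    by_contra hne
    have h1 : e f = e g := congrArg Subtype.val hfg
    have h2 := hbb (f, g) hne (e f) (he1 f) (h1 ▸ he1 g)
    exact absurd ((he2 f).trans (h2.trans (hβ (f, g)))) (lt_irrefl _)
  have h1 := (mk_le_of_injective hinj).trans (hρ (F a) n)
  rw [hT] at h1
  exact absurd h1 (not_le.mpr (Order.lt_succ _))

end Lay86
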