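import Pool.Agent.H86.LAY.Main

/-!
The hypothesis (H) and its consequence `2 ^ ℵ_n ≤ ℵ_(n+1)`.
-/

set_option autoImplicit false

open Set
open Cardinal hiding univ
open scoped Ordinal

namespace Lay86

/-- an ideal is normal if it is closed under diagonal unions -/
def IsNormal {K : Type} [LinearOrder K] (I : Set (Set K)) : Prop :=
  ∀ A : K → Set K, (∀ a, A a ∈ I) → {b | ∃ a < b, b ∈ A a} ∈ I

/-- the poset of partial functions from `M` to `L` with domain of size `< μ` -/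
structure Col (M L : Type) (μ : Cardinal.{0}) where
  fn : M → Option L
  small : #{x | fn x ≠ none} < μ

/-- `p ≤ q` if `p` extends `q` -/
instance (M L : Type) (μ : Cardinal.{0}) : Preorder (Col M L μ) where
  le p q := ∀ x y, q.fn x = some y → p.fn x = some y
  le_refl _ _ _ h := h
  le_trans _ _ _ h1 h2 x y h := h1 x y (h2 x y h)

/-- the regular open algebra of the poset `P` (with the topology of lower sets) -/
def RegOpen (P : Type) [Preorder P] : Type :=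
  {U : Set P // (∀ p ∈ U, ∀ q ≤ p, q ∈ U) ∧ ∀ p, (∀ q ≤ p, ∃ r ≤ q, r ∈ U) → p ∈ U}

instance (P : Type) [Preorder P] : PartialOrder (RegOpen P) :=
  inferInstanceAs (PartialOrder {U : Set P //
    (∀ p ∈ U, ∀ q ≤ p, q ∈ U) ∧ ∀ p, (∀ q ≤ p, ∃ r ≤ q, r ∈ U) → p ∈ U})

/-- `P(K)/I` is isomorphic to the regular open algebra of `P` -/
def QuotIso {K : Type} (I : Set (Set K)) (P : Type) [Preorder P] : Prop :=
  ∃ φ : Set K → RegOpen P, Function.Surjective φ ∧ ∀ X Y, φ X ≤ φ Y ↔ X \ Y ∈ I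

/-- the hypothesis (H) -/
def HypH : Prop := ∀ n : ℕ, ∃ I : Set (Set (Al (n + 1))), IsIdeal (ℵ_ (n + 1)) I ∧ IsNormal I ∧
  QuotIso I (Col (Al n) (Al (n + 1)) (ℵ_ n))

section col

variable {M L : Type} {μ : Cardinal.{0}}

theorem Col.lower (hμ : μ.IsRegular) {ι : Type} (hι : #ι < μ) (f : ι → Col M L μ)
    (hf : ∀ i j, f i ≤ f j ∨ f j ≤ f i) : ∃ p : Col M L μ, ∀ i, p ≤ f i := by
  classical
  have hval : ∀ x, ∃ o : Option L, (∀ i y, (f i).fn x = some y → o = some y) ∧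
      (o ≠ none → ∃ i, (f i).fn x ≠ none) := by
    intro x
    by_cases h : ∃ i y, (f i).fn x = some y
    · obtain ⟨i, y, hiy⟩ := h
      refine ⟨some y, ?_, fun _ => ⟨i, by rw [hiy]; exact Option.some_ne_none y⟩⟩
      intro j z hjz
      rcases hf i j with h | h
      · have := h x z hjz
        rw [hiy] at this
        exact this
      · have := h x y hiy
        rw [hjz] at this
        exact this.symm
    · refine ⟨none, ?_, fun h' => absurd rfl h'⟩
      intro i y hiy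
      exact absurd ⟨i, y, hiy⟩ h
  choose o ho1 ho2 using hval
  refine ⟨⟨o, ?_⟩, fun i x y h => ho1 x i y h⟩
  have h1 : {x | o x ≠ none} ⊆ ⋃ i, {x | (f i).fn x ≠ none} := by
    intro x hx
    obtain ⟨i, hi⟩ := ho2 x hx
    exact mem_iUnion.mpr ⟨i, hi⟩
  refine (mk_le_mk_of_subset h1).trans_lt ?_
  rw [card_iUnion_lt_iff_forall_of_isRegular hμ hι]
  exact fun i => (f i).small

end col

section ro

variable {P : Type} [Preorder P]

/-- the regular open hull of the cone below `p` -/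
def hull (p : P) : RegOpen P :=
  ⟨{r | ∀ q ≤ r, ∃ s ≤ q, s ≤ p}, by
    constructor
    · intro r hr q hq s hs
      exact hr s (hs.trans hq)
    · intro r hr q hq
      obtain ⟨s, hs, hsU⟩ := hr q hq
      obtain ⟨t, ht, htp⟩ := hsU s le_rfl
      exact ⟨t, ht.trans hs, htp⟩⟩

theorem mem_hull (p : P) : p ∈ (hull p).1 := fun q hq => ⟨q, le_rfl, hq⟩

theorem hull_le {p : P} {U : RegOpen P} (h : p ∈ U.1) : hull p ≤ U := by
  intro r hr
  apply U.2.2
  intro q hq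
  obtain ⟨s, hs, hsp⟩ := hr q hq
  exact ⟨s, hs, U.2.1 p h s hsp⟩

variable {K : Type} {κ : Cardinal.{0}} {I : Set (Set K)}

theorem phi_pos (hI : IsIdeal κ I) {φ : Set K → RegOpen P} (hs : Function.Surjective φ)
    (hφ : ∀ X Y, φ X ≤ φ Y ↔ X \ Y ∈ I) {X : Set K} : X ∉ I ↔ ∃ p, p ∈ (φ X).1 := by
  have hemp : ∀ p, p ∉ (φ ∅).1 := by
    let E : RegOpen P := ⟨∅, fun p hp => absurd hp (notMem_empty p), fun p hp => by
      obtain ⟨r, _, hr⟩ := hp p le_rfl
      exact hr⟩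
    obtain ⟨Z, hZ⟩ := hs E
    have h1 : φ ∅ ≤ φ Z := by
      rw [hφ, empty_sdiff]
      have h2 : φ Z ≤ φ Z := le_rfl
      rw [hφ] at h2
      exact hI.down _ h2 _ (empty_subset _)
    intro p hp
    have := h1 hp
    rw [hZ] at this
    exact this
  constructor
  · intro hX
    by_contra hcon
    push Not at hcon
    apply hX
    have h1 : φ X ≤ φ ∅ := fun p hp => absurd hp (hcon p)
    rw [hφ, sdiff_empty] at h1
    exact h1
  · rintro ⟨p, hp⟩ hX
    have h1 : φ X ≤ φ ∅ := by rw [hφ, sdiff_empty]; exact hX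
    exact hemp p (h1 hp)

theorem decide_one (hI : IsIdeal κ I) (hκ : ℵ₀ < κ) {φ : Set K → RegOpen P}
    (hs : Function.Surjective φ) (hφ : ∀ X Y, φ X ≤ φ Y ↔ X \ Y ∈ I) (A : Set K) (p : P) :
    ∃ q ≤ p, q ∈ (φ A).1 ∨ q ∈ (φ Aᶜ).1 := by
  obtain ⟨Y, hY⟩ := hs (hull p)
  have hYI : Y ∉ I := (phi_pos hI hs hφ).mpr ⟨p, by rw [hY]; exact mem_hull p⟩
  have hcase : Y ∩ A ∉ I ∨ Y ∩ Aᶜ ∉ I := by
    by_contra h
    push Not at h
    apply hYI
    apply hI.down _ (hI.union hκ h.1 h.2)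
    intro x hx
    by_cases hxA : x ∈ A
    · exact Or.inl ⟨hx, hxA⟩
    · exact Or.inr ⟨hx, hxA⟩
  have key : ∀ B : Set K, Y ∩ B ∉ I → ∃ q ≤ p, q ∈ (φ B).1 := by
    intro B hB
    obtain ⟨r, hr⟩ := (phi_pos hI hs hφ).mp hB
    have h1 : φ (Y ∩ B) ≤ φ Y := by
      rw [hφ]
      apply hI.down _ (hI.empty hκ)
      rintro x ⟨hx1, hx2⟩
      exact hx2 hx1.1
    have h2 : φ (Y ∩ B) ≤ φ B := by
      rw [hφ]
      apply hI.down _ (hI.empty hκ)
      rintro x ⟨hx1, hx2⟩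
      exact hx2 hx1.2
    have h3 := h1 hr
    rw [hY] at h3
    obtain ⟨s, hs1, hs2⟩ := h3 r le_rfl
    exact ⟨s, hs2, (φ B).2.1 r (h2 hr) s hs1⟩
  rcases hcase with h | h
  · obtain ⟨q, hq, hq2⟩ := key A h
    exact ⟨q, hq, Or.inl hq2⟩
  · obtain ⟨q, hq, hq2⟩ := key Aᶜ h
    exact ⟨q, hq, Or.inr hq2⟩

end ro

theorem decide_all {K M L : Type} {κ μ : Cardinal.{0}} {I : Set (Set K)} (hI : IsIdeal κ I)
    (hκ : ℵ₀ < κ) (hμ : μ.IsRegular) {φ : Set K → RegOpen (Col M L μ)}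
    (hs : Function.Surjective φ) (hφ : ∀ X Y, φ X ≤ φ Y ↔ X \ Y ∈ I)
    {T : Type} [LinearOrder T] [WellFoundedLT T] (hT : #T < μ) (A : T → Set K) :
    ∃ X, X ∉ I ∧ ∀ i, X \ A i ∈ I ∨ X ∩ A i ∈ I := by
  classical
  have hext := fun (i : T) (p : Col M L μ) => decide_one hI hκ hs hφ (A i) p
  choose ext hext1 hext2 using hext
  have hlb : ∀ (i : T) (g : (j : T) → j < i → Col M L μ), ∃ q : Col M L μ,
      (∀ j k (hj : j < i) (hk : k < i), g j hj ≤ g k hk ∨ g k hk ≤ g j hj) →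
        ∀ j (hj : j < i), q ≤ g j hj := by
    intro i g
    by_cases h : ∀ j k (hj : j < i) (hk : k < i), g j hj ≤ g k hk ∨ g k hk ≤ g j hj
    · obtain ⟨q, hq⟩ := Col.lower hμ (ι := Iio i) ((mk_set_le _).trans_lt hT)
        (fun j => g j.1 j.2) (fun j k => h j.1 k.1 j.2 k.2)
      exact ⟨q, fun _ j hj => hq ⟨j, hj⟩⟩
    · refine ⟨⟨fun _ => none, ?_⟩, fun h' => absurd h' h⟩
      have : {x : M | (none : Option L) ≠ none} = ∅ := by ext x; simp
      rw [this, mk_eq_zero]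
      exact hμ.pos
  choose lb hlb using hlb
  let p : T → Col M L μ := WellFounded.fix (wellFounded_lt (α := T)) (fun i g => ext i (lb i g))
  have hp : ∀ i, p i = ext i (lb i (fun j _ => p j)) := by
    intro i
    exact WellFounded.fix_eq _ _ _
  have hmono : ∀ i, ∀ j < i, p i ≤ p j := by
    intro i
    induction i using WellFoundedLT.induction with
    | ind i ih =>
      intro j hj
      rw [hp i]
      refine (hext1 i _).trans ?_
      apply hlb i (fun j _ => p j) _ j hj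
      intro j k hj hk
      rcases lt_trichotomy j k with h | h | h
      · exact Or.inr (ih k hk j h)
      · subst h; exact Or.inl le_rfl
      · exact Or.inl (ih j hj k h)
  obtain ⟨q, hq⟩ := Col.lower hμ hT p (by
    intro j k
    rcases lt_trichotomy j k with h | h | h
    · exact Or.inr (hmono k j h)
    · subst h; exact Or.inl le_rfl
    · exact Or.inl (hmono j k h))
  obtain ⟨X, hX⟩ := hs (hull q)
  refine ⟨X, (phi_pos hI hs hφ).mpr ⟨q, by rw [hX]; exact mem_hull q⟩, ?_⟩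
  intro i
  have h1 := hext2 i (lb i (fun j _ => p j))
  rw [← hp i] at h1
  rcases h1 with h1 | h1
  · left
    rw [← hφ, hX]
    exact hull_le ((φ (A i)).2.1 _ h1 q (hq i))
  · right
    have h2 : X \ (A i)ᶜ ∈ I := by
      rw [← hφ, hX]
      exact hull_le ((φ (A i)ᶜ).2.1 _ h1 q (hq i))
    apply hI.down _ h2
    rintro x ⟨hx1, hx2⟩
    exact ⟨hx1, fun h => h hx2⟩

theorem pow_le_of_H (H : HypH) (n : ℕ) :
    (2 : Cardinal.{0}) ^ (ℵ_ (n : Ordinal.{0})) ≤ ℵ_ ((n + 1 : ℕ) : Ordinal.{0}) := by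
  classical
  by_contra hcon
  push Not at hcon
  obtain ⟨I, hI, _, φ, hs, hφ⟩ := H (n + 1)
  have hcard : #(Al (((n + 1 : ℕ) : Ordinal.{0}) + 1)) ≤ #(Set (Al n)) := by
    rw [mk_set, Al, Al, mk_ord_toType, mk_ord_toType, ← succ_aleph]
    exact Order.succ_le_of_lt hcon
  obtain ⟨r⟩ : Nonempty (Al (((n + 1 : ℕ) : Ordinal.{0}) + 1) ↪ Set (Al n)) := by
    rw [← Cardinal.le_def]; exact hcard
  have hκ : ℵ₀ < ℵ_ (((n + 1 : ℕ) : Ordinal.{0}) + 1) := by
    rw [aleph0_lt_aleph]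
    exact lt_of_le_of_lt (bot_le : ⊥ ≤ ((n + 1 : ℕ) : Ordinal.{0})) (Order.lt_add_one_iff.mpr le_rfl)
  have hμ : (ℵ_ ((n + 1 : ℕ) : Ordinal.{0})).IsRegular := by
    have := isRegular_aleph_add_one (n : Ordinal.{0})
    push_cast
    exact this
  have hlt : ℵ_ (n : Ordinal.{0}) < ℵ_ ((n + 1 : ℕ) : Ordinal.{0}) := by
    rw [aleph_lt_aleph]
    exact_mod_cast Nat.lt_succ_self n
  have hTμ : #(Al n) < ℵ_ ((n + 1 : ℕ) : Ordinal.{0}) := by
    rw [Al, mk_ord_toType]; exact hlt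
  obtain ⟨X, hX, hdec⟩ := decide_all hI hκ hμ hs hφ hTμ (fun i => {a | i ∈ r a})
  have hTκ : #(Al n) < ℵ_ (((n + 1 : ℕ) : Ordinal.{0}) + 1) :=
    hTμ.trans (aleph_lt_aleph.mpr (Order.lt_add_one_iff.mpr le_rfl))
  have hN : (⋃ i : Al n, if X \ {a | i ∈ r a} ∈ I then X \ {a | i ∈ r a}
      else X ∩ {a | i ∈ r a}) ∈ I := by
    apply hI.iUnion hTκ
    intro i
    split_ifs with h
    · exact h
    · exact (hdec i).resolve_left h
  have hpos := hI.pos_diff hκ hX hN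
  obtain ⟨a, ha⟩ := hI.nonempty hκ hpos
  apply hpos
  apply hI.down _ (hI.single a)
  intro b hb
  rw [mem_singleton_iff]
  apply r.injective
  ext i
  have key : ∀ c ∈ X \ ⋃ i : Al n, (if X \ {a | i ∈ r a} ∈ I then X \ {a | i ∈ r a}
      else X ∩ {a | i ∈ r a}), (i ∈ r c ↔ X \ {a | i ∈ r a} ∈ I) := by
    rintro c ⟨hcX, hc⟩
    by_cases h : X \ {a | i ∈ r a} ∈ I
    · refine ⟨fun _ => h, fun _ => ?_⟩
      by_contra hn
      apply hc
      refine mem_iUnion.mpr ⟨i, ?_⟩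
      rw [if_pos h]
      exact ⟨hcX, hn⟩
    · refine ⟨fun hn => ?_, fun h' => absurd h' h⟩
      exfalso
      apply hc
      refine mem_iUnion.mpr ⟨i, ?_⟩
      rw [if_neg h]
      exact ⟨hcX, hn⟩
  rw [key b hb, key a ha]

end Lay86
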