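import Pool.Agent.H86.LAY.Basic

/-!
Existence of incompressible (least unbounded) functions for saturated ideals.
-/

set_option autoImplicit false

open Set
open Cardinal hiding univ

namespace Lay86

/-- `F` represents (the sup of the fixed part) `κ` modulo `J` -/
structure Incomp {K : Type} [LinearOrder K] (J : Set (Set K)) (F : K → K) : Prop where
  unb : ∀ b, {a | F a ≤ b} ∈ J
  press : ∀ X, X ∉ J → ∀ g : K → K, (∀ a ∈ X, g a < F a) → ∃ b, {a | a ∈ X ∧ g a = b} ∉ J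

variable {K : Type} [LinearOrder K] [WellFoundedLT K] {κ : Cardinal.{0}} {J : Set (Set K)}

theorem glue (hK : IsK K κ) (hJ : IsIdeal κ J) (hsat : Saturated (Order.succ κ) J)
    {P : Set K → (K → K) → Prop} {X0 : Set K}
    (h : ∀ Y ⊆ X0, Y ∉ J → ∃ Z ⊆ Y, Z ∉ J ∧ ∃ f, P Z f) :
    ∃ G : K → K, ∀ Y ⊆ X0, Y ∉ J → ∃ Z' ⊆ Y, Z' ∉ J ∧ ∃ Z f, P Z f ∧ Z' ⊆ Z ∧
      ∀ a ∈ Z', G a = f a := by
  classical
  let S : Set (Set (Set K)) := {A | (∀ Z ∈ A, Z ⊆ X0 ∧ Z ∉ J ∧ ∃ f, P Z f) ∧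
    ∀ Z ∈ A, ∀ W ∈ A, Z ≠ W → Z ∩ W ∈ J}
  obtain ⟨A, hA⟩ := zorn_subset S (by
    intro c hc hchain
    refine ⟨⋃₀ c, ⟨?_, ?_⟩, fun s hs => subset_sUnion_of_mem hs⟩
    · rintro Z ⟨s, hs, hZ⟩
      exact (hc hs).1 Z hZ
    · rintro Z ⟨s, hs, hZ⟩ W ⟨t, ht, hW⟩ hne
      rcases hchain.total hs ht with hst | hst
      · exact (hc ht).2 Z (hst hZ) W hW hne
      · exact (hc hs).2 Z hZ W (hst hW) hne)
  have hA1 := hA.prop.1
  have hA2 := hA.prop.2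
  -- maximality
  have hmax : ∀ Y ⊆ X0, Y ∉ J → ∃ Z ∈ A, Y ∩ Z ∉ J := by
    intro Y hY hYJ
    by_contra hcon
    push Not at hcon
    obtain ⟨Z, hZY, hZJ, f, hf⟩ := h Y hY hYJ
    have hZA : Z ∉ A := by
      intro hZA
      have := hcon Z hZA
      rw [inter_eq_right.mpr hZY] at this
      exact hZJ this
    have hmem : insert Z A ∈ S := by
      refine ⟨?_, ?_⟩
      · rintro W (rfl | hW)
        · exact ⟨hZY.trans hY, hZJ, f, hf⟩
        · exact hA1 W hW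
      · rintro W (rfl | hW) V (rfl | hV) hne
        · exact absurd rfl hne
        · exact hJ.down _ (hcon V hV) _ (inter_subset_inter_left _ hZY)
        · rw [inter_comm]
          exact hJ.down _ (hcon W hW) _ (inter_subset_inter_left _ hZY)
        · exact hA2 W hW V hV hne
    exact hZA (hA.le_of_ge hmem (subset_insert _ _) (mem_insert _ _))
  -- cardinality
  have hcard : #A ≤ κ := by
    by_contra hcon
    push Not at hcon
    obtain ⟨B, hBA, hB⟩ := le_mk_iff_exists_subset.mp (Order.succ_le_of_lt hcon)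
    exact hsat ⟨B, hB, fun X hX => (hA1 X (hBA hX)).2.1,
      fun X hX Y hY hne => hA2 X (hBA hX) Y (hBA hY) hne⟩
  obtain ⟨e⟩ : Nonempty (A ↪ K) := by
    rw [← Cardinal.le_def, hK.card]; exact hcard
  have hleast : ∀ a : K, ∃ Z : Option A, (∀ W : A, a ∈ W.1 → ∃ Z' : A, Z = some Z' ∧ a ∈ Z'.1 ∧
      ∀ V : A, a ∈ V.1 → e Z' ≤ e V) := by
    intro a
    by_cases hex : ∃ W : A, a ∈ W.1
    · have hne : (e '' {W : A | a ∈ W.1}).Nonempty := by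
        obtain ⟨W, hW⟩ := hex
        exact ⟨e W, W, hW, rfl⟩
      obtain ⟨m, ⟨Z', hZ', rfl⟩, hmin⟩ := WellFounded.has_min (wellFounded_lt (α := K)) _ hne
      refine ⟨some Z', fun W _ => ⟨Z', rfl, hZ', fun V hV => ?_⟩⟩
      exact not_lt.mp (hmin (e V) ⟨V, hV, rfl⟩)
    · exact ⟨none, fun W hW => absurd ⟨W, hW⟩ hex⟩
  choose sel hsel using hleast
  have hf : ∀ Z : A, ∃ f, P Z.1 f := fun Z => (hA1 Z.1 Z.2).2.2
  choose f hf using hf
  refine ⟨fun a => match sel a with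
    | some Z => f Z a
    | none => a, ?_⟩
  intro Y hY hYJ
  obtain ⟨Z, hZA, hZ⟩ := hmax Y hY hYJ
  let N : Set K := ⋃ W ∈ {W : A | e W < e ⟨Z, hZA⟩}, Z ∩ W.1
  have hN : N ∈ J := by
    apply hJ.biUnion
    · have h1 : #{W : A | e W < e ⟨Z, hZA⟩} ≤ #(Iio (e ⟨Z, hZA⟩)) := by
        apply mk_le_of_injective (f := fun W => (⟨e W.1, W.2⟩ : Iio (e ⟨Z, hZA⟩)))
        intro W V hWV
        have := congrArg Subtype.val hWV
        exact Subtype.ext (e.injective this)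
      exact h1.trans_lt (hK.iio _)
    · intro W hW
      apply hA2 Z hZA W.1 W.2
      intro heq
      have : (⟨Z, hZA⟩ : A) = W := Subtype.ext heq
      rw [this] at hW
      exact lt_irrefl _ hW
  refine ⟨(Y ∩ Z) \ N, fun a ha => ha.1.1, hJ.pos_diff hK.unc hZ hN, Z, f ⟨Z, hZA⟩, hf ⟨Z, hZA⟩,
    fun a ha => ha.1.2, ?_⟩
  intro a ha
  obtain ⟨Z', hs, haZ', hmin⟩ := hsel a ⟨Z, hZA⟩ ha.1.2
  have hZ'Z : Z' = ⟨Z, hZA⟩ := by
    apply e.injective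
    apply le_antisymm (hmin ⟨Z, hZA⟩ ha.1.2)
    by_contra hlt
    push Not at hlt
    exact ha.2 (mem_iUnion₂.mpr ⟨Z', hlt, ha.1.2, haZ'⟩)
  simp only [hs, hZ'Z]

/-- `f` is unbounded on `X` modulo `J` -/
def UnbOn (J : Set (Set K)) (f : K → K) (X : Set K) : Prop := ∀ b, {a | a ∈ X ∧ f a ≤ b} ∈ J

/-- `f` is a minimal unbounded function on `X` -/
def MinOn (J : Set (Set K)) (X : Set K) (f : K → K) : Prop :=
  UnbOn J f X ∧ ∀ Y ⊆ X, Y ∉ J → ∀ g : K → K, (∀ a ∈ Y, g a < f a) → ¬ UnbOn J g Y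

theorem exists_min (hK : IsK K κ) (hJ : IsIdeal κ J) (hsat : Saturated (Order.succ κ) J)
    {X0 : Set K} (hX0 : X0 ∉ J) : ∃ Y ⊆ X0, Y ∉ J ∧ ∃ f, MinOn J Y f := by
  by_contra hcon
  push Not at hcon
  have hstep : ∀ f : K → K, UnbOn J f X0 → ∃ g : K → K, UnbOn J g X0 ∧
      {a | a ∈ X0 ∧ f a ≤ g a} ∈ J := by
    intro f hf
    obtain ⟨G, hG⟩ := glue hK hJ hsat (X0 := X0)
      (P := fun Z g => UnbOn J g Z ∧ ∀ a ∈ Z, g a < f a) (by
        intro Y hY hYJ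
        have h1 := hcon Y hY hYJ f
        have h2 : UnbOn J f Y := fun b => hJ.down _ (hf b) _ (fun a ha => ⟨hY ha.1, ha.2⟩)
        unfold MinOn at h1
        push Not at h1
        obtain ⟨Z, hZY, hZJ, g, hg, hgu⟩ := h1 h2
        exact ⟨Z, hZY, hZJ, g, hgu, hg⟩)
    refine ⟨G, ?_, ?_⟩
    · intro b
      by_contra hb
      obtain ⟨Z', hZ'Y, hZ'J, Z, g, ⟨hgu, _⟩, hZ'Z, hGg⟩ := hG _ (fun a ha => ha.1) hb
      apply hZ'J
      apply hJ.down _ (hgu b)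
      intro a ha
      exact ⟨hZ'Z ha, (hGg a ha) ▸ (hZ'Y ha).2⟩
    · by_contra hb
      obtain ⟨Z', hZ'Y, hZ'J, Z, g, ⟨_, hgf⟩, hZ'Z, hGg⟩ := hG _ (fun a ha => ha.1) hb
      obtain ⟨a, ha⟩ := hJ.nonempty hK.unc hZ'J
      have h1 := (hZ'Y ha).2
      rw [hGg a ha] at h1
      exact absurd (hgf a (hZ'Z ha)) (not_lt.mpr h1)
  have hid : UnbOn J id X0 := by
    intro b
    exact hJ.down _ (hJ.iic hK b) _ (fun a ha => ha.2)
  choose nx hnx1 hnx2 using hstep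
  let seq : ℕ → {f : K → K // UnbOn J f X0} := fun n =>
    Nat.rec ⟨id, hid⟩ (fun _ f => ⟨nx f.1 f.2, hnx1 f.1 f.2⟩) n
  have hbad : (⋃ n, {a | a ∈ X0 ∧ (seq n).1 a ≤ (seq (n + 1)).1 a}) ∈ J :=
    hJ.iUnionNat hK.unc (fun n => hnx2 (seq n).1 (seq n).2)
  obtain ⟨a, ha, haN⟩ := hJ.nonempty hK.unc (hJ.pos_diff hK.unc hX0 hbad)
  have hdesc : ∀ n, (seq (n + 1)).1 a < (seq n).1 a := by
    intro n
    by_contra h
    push Not at h
    exact haN (mem_iUnion.mpr ⟨n, ha, h⟩)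
  exact (RelEmbedding.natGT (fun n => (seq n).1 a) hdesc).not_wellFounded wellFounded_lt

theorem exists_incomp (hK : IsK K κ) (hJ : IsIdeal κ J) (hsat : Saturated (Order.succ κ) J) :
    ∃ F : K → K, Incomp J F := by
  obtain ⟨F, hF⟩ := glue hK hJ hsat (X0 := Set.univ) (P := fun Z f => MinOn J Z f)
    (fun Y _ hYJ => exists_min hK hJ hsat hYJ)
  refine ⟨F, ⟨?_, ?_⟩⟩
  · intro b
    by_contra hb
    obtain ⟨Z', hZ'Y, hZ'J, Z, f, ⟨hfu, _⟩, hZ'Z, hFf⟩ := hF _ (subset_univ _) hb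
    apply hZ'J
    apply hJ.down _ (hfu b)
    intro a ha
    exact ⟨hZ'Z ha, (hFf a ha) ▸ (hZ'Y ha)⟩
  · intro X hX g hg
    obtain ⟨Z', hZ'X, hZ'J, Z, f, ⟨_, hmin⟩, hZ'Z, hFf⟩ := hF X (subset_univ _) hX
    have h1 := hmin Z' hZ'Z hZ'J g (fun a ha => (hFf a ha) ▸ hg a (hZ'X ha))
    unfold UnbOn at h1
    push Not at h1
    obtain ⟨b, hb⟩ := h1
    obtain ⟨v, _, hv⟩ := hJ.pigS (hK.iic b) g (fun a ha => ha.2) hb
    exact ⟨v, hJ.pos_mono hv (fun a ha => ⟨hZ'X ha.1.1, ha.2⟩)⟩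

end Lay86
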