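import Pool.Agent.H86.LAY.Tree

/-!
The main theorem for a general cardinal, and the case of `ℵ_(ω+1)`.
-/

set_option autoImplicit false

open Set
open Cardinal hiding univ
open scoped Ordinal

namespace Lay86

variable {K : Type} [LinearOrder K] [WellFoundedLT K] {κ : Cardinal.{0}} {J : Set (Set K)}

theorem main_general (hK : IsK K κ) {l : ℕ → Cardinal.{0}}
    (hr : ∀ x : K, ∃ r : K → ℕ, ∀ n, #{d | d < x ∧ r d ≤ n} ≤ l n)
    (hl : ∀ n, Order.succ (l n) < κ) (hp : ∀ n, 2 ^ (l n) < κ) (hl0 : ℵ₀ ≤ l 0)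
    (hJ : IsIdeal κ J) (hsat : Saturated (Order.succ κ) J) :
    ∃ S : Set (Set K), #S ≤ κ ∧ ∀ A D : Set (Set K), S ⊆ A → IsRegularSub J A →
      IsDenseIn J A D → κ < #D := by
  classical
  obtain ⟨F, hF⟩ := exists_incomp hK hJ hsat
  choose ρ hρ using hr
  have hch : ∀ g : K, ∃ s : ℕ → K, CofOm g → (∀ n, s n < g) ∧ ∀ b < g, ∃ n, b < s n := by
    intro g
    by_cases h : CofOm g
    · obtain ⟨s, hs⟩ := h
      exact ⟨s, fun _ => hs⟩
    · exact ⟨fun _ => g, fun h' => absurd h' h⟩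
  choose c hc using hch
  refine ⟨range (fun p : K × ℕ => {a | p.1 < F a ∧ ρ (F a) p.1 ≤ p.2}) ∪
    range (fun p : K × ℕ => {a | c (F a) p.2 = p.1}), ?_, ?_⟩
  · have hKN : #(K × ℕ) ≤ κ := by
      rw [mk_prod, lift_id, lift_id, mk_nat, hK.card]
      exact (mul_le_mul' le_rfl hK.unc.le).trans (mul_eq_self hK.unc.le).le
    refine (mk_union_le _ _).trans ?_
    refine (add_le_add (mk_range_le.trans hKN) (mk_range_le.trans hKN)).trans ?_
    exact (add_eq_self hK.unc.le).le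
  · intro A D hSA hA hD
    by_contra hcon
    push Not at hcon
    exact no_small hK hJ hF hρ hl hp hl0 hc hA hD hcon
      (fun d n => hSA (Or.inl ⟨(d, n), rfl⟩)) (fun n b => hSA (Or.inr ⟨(b, n), rfl⟩))

/-- the well-ordered set of type `ω_o` -/
abbrev Al (o : Ordinal.{0}) : Type := (ℵ_ o).ord.ToType

theorem isK_Al (o : Ordinal.{0}) : IsK (Al (o + 1)) (ℵ_ (o + 1)) where
  reg := isRegular_aleph_add_one o
  unc := by
    rw [aleph0_lt_aleph]
    exact lt_of_le_of_lt (bot_le : ⊥ ≤ o) (Order.lt_add_one_iff.mpr le_rfl)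
  card := mk_ord_toType _
  iio := fun x => mk_Iio_toType_ord_lt x

theorem exists_rank {T : Type} (hT : #T ≤ ℵ_ ω) : ∃ r : T → ℕ, ∀ n : ℕ, #{t | r t ≤ n} ≤ ℵ_ n := by
  have hle : ℵ_ ω ≤ #(Σ n : ℕ, (ℵ_ (n : Ordinal.{0})).out) := by
    rw [mk_sigma, aleph_limit Ordinal.isSuccLimit_omega0]
    apply ciSup_le'
    rintro ⟨a, ha⟩
    obtain ⟨n, rfl⟩ := Ordinal.lt_omega0.mp ha
    simp only [mk_out]
    exact le_sum (fun n : ℕ => ℵ_ (n : Ordinal.{0})) n
  obtain ⟨e⟩ : Nonempty (T ↪ Σ n : ℕ, (ℵ_ (n : Ordinal.{0})).out) := by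
    rw [← Cardinal.le_def]; exact hT.trans hle
  refine ⟨fun t => (e t).1, ?_⟩
  intro n
  have h1 : #{t | (e t).1 ≤ n} ≤ #(Σ i : Fin (n + 1), (ℵ_ ((i : ℕ) : Ordinal.{0})).out) := by
    apply mk_le_of_injective (f := fun t : {t | (e t).1 ≤ n} =>
      (⟨⟨(e t.1).1, Nat.lt_succ_of_le t.2⟩, (e t.1).2⟩ :
        Σ i : Fin (n + 1), (ℵ_ ((i : ℕ) : Ordinal.{0})).out))
    intro s t hst
    apply Subtype.ext
    apply e.injective
    have h2 := Sigma.mk.inj hst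
    have h3 : (e s.1).1 = (e t.1).1 := congrArg Fin.val h2.1
    exact Sigma.ext h3 h2.2
  refine h1.trans ?_
  rw [mk_sigma]
  refine (sum_le_sum _ (fun _ : Fin (n + 1) => ℵ_ (n : Ordinal.{0})) ?_).trans ?_
  · intro i
    rw [mk_out]
    apply aleph_le_aleph.mpr
    exact_mod_cast Nat.le_of_lt_succ i.2
  · rw [sum_const', mk_fin]
    calc ((n + 1 : ℕ) : Cardinal) * ℵ_ (n : Ordinal.{0}) ≤ ℵ_ (n : Ordinal.{0}) * ℵ_ (n : Ordinal.{0}) := by
          apply mul_le_mul' _ le_rfl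
          exact (natCast_lt_aleph0.le).trans (aleph0_le_aleph _)
      _ = ℵ_ (n : Ordinal.{0}) := mul_eq_self (aleph0_le_aleph _)

theorem main_aleph (hpow : ∀ n : ℕ, (2 : Cardinal.{0}) ^ (ℵ_ (n : Ordinal.{0})) < ℵ_ (ω + 1))
    {J : Set (Set (Al (ω + 1)))} (hJ : IsIdeal (ℵ_ (ω + 1)) J) (hsat : Saturated (ℵ_ (ω + 2)) J) :
    ∃ S : Set (Set (Al (ω + 1))), #S ≤ ℵ_ (ω + 1) ∧ ∀ A D : Set (Set (Al (ω + 1))), S ⊆ A →
      IsRegularSub J A → IsDenseIn J A D → ℵ_ (ω + 1) < #D := by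
  have hK := isK_Al ω
  have hsat' : Saturated (Order.succ (ℵ_ (ω + 1))) J := by
    rw [succ_aleph]
    have : (ω + 1 + 1 : Ordinal.{0}) = ω + 2 := by
      rw [add_assoc, one_add_one_eq_two]
    rw [this]; exact hsat
  refine main_general hK (l := fun n : ℕ => ℵ_ (n : Ordinal.{0})) ?_ ?_ hpow ?_ hJ hsat'
  · intro x
    have h1 : #(Iio x) ≤ ℵ_ ω := by
      have h2 := hK.iio x
      exact Order.le_of_lt_succ (h2.trans_eq (succ_aleph ω).symm)
    obtain ⟨r, hr⟩ := exists_rank h1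
    classical
    refine ⟨fun d => if h : d < x then r ⟨d, h⟩ else 0, ?_⟩
    intro n
    refine le_trans ?_ (hr n)
    apply mk_le_of_injective (f := fun d : {d | d < x ∧ (if h : d < x then r ⟨d, h⟩ else 0) ≤ n} =>
      (⟨⟨d.1, d.2.1⟩, by
        have := d.2.2
        rw [dif_pos d.2.1] at this
        exact this⟩ : {t : Iio x | r t ≤ n}))
    intro d d' h
    apply Subtype.ext
    exact congrArg (fun z : {t : Iio x | r t ≤ n} => z.1.1) h
  · intro n
    show Order.succ (ℵ_ (n : Ordinal.{0})) < ℵ_ (ω + 1)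
    rw [succ_aleph, aleph_lt_aleph]
    have h1 : ((n : Ordinal.{0}) + 1) < ω := by
      have := Ordinal.natCast_lt_omega0 (n + 1)
      push_cast at this
      exact this
    exact h1.trans (Order.lt_add_one_iff.mpr le_rfl)
  · show ℵ₀ ≤ ℵ_ (((0 : ℕ)) : Ordinal.{0})
    exact aleph0_le_aleph _

end Lay86
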