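import Pool.Agent.H86.LAY.Cof

/-!
A regular subalgebra of small density cannot contain a cofinal `ω`-sequence in the critical point.
-/

set_option autoImplicit false

open Set
open Cardinal hiding univ

namespace Lay86

variable {K : Type} [LinearOrder K] [WellFoundedLT K] {κ : Cardinal.{0}} {J : Set (Set K)}

/-- the same information of level `k` -/
def Eqv (F : K → K) (c : K → ℕ → K) (ρ : K → K → ℕ) (d : K → Set K) (k : ℕ) (a b : K) : Prop :=
  ∀ i ≤ k, c (F a) i = c (F b) i ∧ ∀ x, x < c (F a) i → ρ (c (F a) i) x ≤ k → (a ∈ d x ↔ b ∈ d x)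

/-- the fibre of level `k` through `a` -/
def fib (F : K → K) (c : K → ℕ → K) (ρ : K → K → ℕ) (d : K → Set K) (k : ℕ) (a : K) : Set K :=
  {b | Eqv F c ρ d k a b}

section eqv

variable {F : K → K} {c : K → ℕ → K} {ρ : K → K → ℕ} {d : K → Set K}

omit [WellFoundedLT K] in
theorem Eqv.refl (k : ℕ) (a : K) : Eqv F c ρ d k a a := fun _ _ => ⟨rfl, fun _ _ _ => Iff.rfl⟩

omit [WellFoundedLT K] in
theorem Eqv.symm {k : ℕ} {a b : K} (h : Eqv F c ρ d k a b) : Eqv F c ρ d k b a := by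
  intro i hi
  obtain ⟨h1, h2⟩ := h i hi
  refine ⟨h1.symm, ?_⟩
  intro x hx hρ
  rw [← h1] at hx hρ
  exact (h2 x hx hρ).symm

omit [WellFoundedLT K] in
theorem Eqv.trans {k : ℕ} {a b e : K} (h : Eqv F c ρ d k a b) (h' : Eqv F c ρ d k b e) :
    Eqv F c ρ d k a e := by
  intro i hi
  obtain ⟨h1, h2⟩ := h i hi
  obtain ⟨h3, h4⟩ := h' i hi
  refine ⟨h1.trans h3, ?_⟩
  intro x hx hρ
  refine (h2 x hx hρ).trans ?_
  rw [h1] at hx hρ
  exact h4 x hx hρ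

omit [WellFoundedLT K] in
theorem Eqv.mono {k m : ℕ} (hkm : k ≤ m) {a b : K} (h : Eqv F c ρ d m a b) : Eqv F c ρ d k a b := by
  intro i hi
  obtain ⟨h1, h2⟩ := h i (hi.trans hkm)
  exact ⟨h1, fun x hx hρ => h2 x hx (hρ.trans hkm)⟩

omit [WellFoundedLT K] in
theorem fib_eq {k : ℕ} {a b : K} (h : Eqv F c ρ d k a b) : fib F c ρ d k a = fib F c ρ d k b := by
  ext e
  exact ⟨fun he => h.symm.trans he, fun he => h.trans he⟩

end eqv

theorem null_fib (hK : IsK K κ) (hJ : IsIdeal κ J) {F : K → K} (hF : Incomp J F)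
    {ρ : K → K → ℕ} {l : ℕ → Cardinal.{0}} (hρ : ∀ c n, #{d | d < c ∧ ρ c d ≤ n} ≤ l n)
    (hp : ∀ n, 2 ^ (l n) < κ) {c : K → ℕ → K} (hc : ∀ g, CofOm g → ∀ n, c g n < g)
    (hcof : {a | ¬ CofOm (F a)} ∈ J) (d : K → Set K) (k : ℕ) :
    {a | fib F c ρ d k a ∈ J} ∈ J := by
  by_contra hN
  have hY0 := hJ.pos_diff hK.unc hN hcof
  set Y0 := {a | fib F c ρ d k a ∈ J} \ {a | ¬ CofOm (F a)} with hY0def
  have hind : ∀ j : ℕ, ∃ Y ⊆ Y0, Y ∉ J ∧ ∀ i < j, ∀ a ∈ Y, ∀ b ∈ Y, c (F a) i = c (F b) i ∧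
      ∀ x, x < c (F a) i → ρ (c (F a) i) x ≤ k → (a ∈ d x ↔ b ∈ d x) := by
    intro j
    induction j with
    | zero => exact ⟨Y0, Subset.refl _, hY0, fun i hi => absurd hi (Nat.not_lt_zero i)⟩
    | succ j ih =>
      obtain ⟨Y, hYY0, hYJ, hY⟩ := ih
      obtain ⟨v, hv⟩ := hF.press Y hYJ (fun a => c (F a) j)
        (fun a ha => hc (F a) (not_not.mp (hYY0 ha).2) j)
      have hset : #(Set {x | x < v ∧ ρ v x ≤ k}) < κ := by
        rw [mk_set]
        exact (power_le_power_left two_ne_zero (hρ v k)).trans_lt (hp k)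
      obtain ⟨t, ht⟩ := hJ.pig hset (fun a => ({x | a ∈ d x.1} : Set {x | x < v ∧ ρ v x ≤ k})) hv
      refine ⟨_, fun a ha => hYY0 ha.1.1, ht, ?_⟩
      rintro i hi a ⟨⟨haY, hav⟩, hat⟩ b ⟨⟨hbY, hbv⟩, hbt⟩
      rcases Nat.lt_succ_iff_lt_or_eq.mp hi with hi' | rfl
      · exact hY i hi' a haY b hbY
      · refine ⟨hav.trans hbv.symm, ?_⟩
        intro x hx hρx
        rw [hav] at hx hρx
        have h1 : (⟨x, hx, hρx⟩ : {x | x < v ∧ ρ v x ≤ k}) ∈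
            ({x | a ∈ d x.1} : Set {x | x < v ∧ ρ v x ≤ k}) ↔
            (⟨x, hx, hρx⟩ : {x | x < v ∧ ρ v x ≤ k}) ∈
            ({x | b ∈ d x.1} : Set {x | x < v ∧ ρ v x ≤ k}) := by rw [hat, hbt]
        exact h1
  obtain ⟨Y, hYY0, hYJ, hY⟩ := hind (k + 1)
  obtain ⟨a, ha⟩ := hJ.nonempty hK.unc hYJ
  have h1 : Y ⊆ fib F c ρ d k a := fun b hb i hi => hY i (Nat.lt_succ_of_le hi) a ha b hb
  exact hYJ (hJ.down _ (hYY0 ha).1 _ h1)

theorem no_small (hK : IsK K κ) (hJ : IsIdeal κ J) {F : K → K} (hF : Incomp J F)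
    {ρ : K → K → ℕ} {l : ℕ → Cardinal.{0}} (hρ : ∀ c n, #{d | d < c ∧ ρ c d ≤ n} ≤ l n)
    (hl : ∀ n, Order.succ (l n) < κ) (hp : ∀ n, 2 ^ (l n) < κ) (hl0 : ℵ₀ ≤ l 0)
    {c : K → ℕ → K} (hc : ∀ g, CofOm g → (∀ n, c g n < g) ∧ ∀ b < g, ∃ n, b < c g n)
    {A D : Set (Set K)} (hA : IsRegularSub J A)
    (hD : IsDenseIn J A D) (hDκ : #D ≤ κ) (hE : ∀ d n, {a | d < F a ∧ ρ (F a) d ≤ n} ∈ A)
    (hC : ∀ n b, {a | c (F a) n = b} ∈ A) : False := by
  classical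
  have hcof := cof_ae hK hJ hF hρ hl hA hD hDκ hE
  have hlκ : ∀ n, l n < κ := fun n => (Order.le_succ _).trans_lt (hl n)
  obtain ⟨d0, hd0, _⟩ := hD.2.2 _ hA.univ_mem hJ.proper
  have : Nonempty D := ⟨⟨d0, hd0⟩⟩
  obtain ⟨e⟩ : Nonempty (D ↪ K) := by
    rw [← Cardinal.le_def, hK.card]; exact hDκ
  have hsurj := Function.invFun_surjective e.injective
  set d : K → Set K := fun x => (Function.invFun e x).1 with hd
  have hdA : ∀ x, d x ∈ A := fun x => hD.1 (Function.invFun e x).2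
  have hdJ : ∀ x, d x ∉ J := fun x => hD.2.1 _ (Function.invFun e x).2
  have hnull := null_fib hK hJ hF hρ hp (c := c) (fun g hg => (hc g hg).1) hcof d
  -- fibres are dense
  have hdense : ∀ X ∈ A, X ∉ J → ∃ k a, fib F c ρ d k a ∉ J ∧ fib F c ρ d k a \ X ∈ J := by
    intro X hXA hXJ
    obtain ⟨d1, hd1, hd1X⟩ := hD.2.2 X hXA hXJ
    obtain ⟨x, hx⟩ := hsurj ⟨d1, hd1⟩
    have hdx : d x = d1 := by rw [hd]; simp only [hx]
    have hpos := hJ.pos_diff hK.unc (hJ.pos_diff hK.unc (hdJ x) hcof) (hF.unb x)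
    obtain ⟨k, hk⟩ := hJ.cover (ι := ℕ) (by rw [mk_nat]; exact hK.unc)
      (Y := fun k => {a | ∃ i ≤ k, x < c (F a) i ∧ ρ (c (F a) i) x ≤ k}) (by
      rintro a ⟨⟨_, ha⟩, hax⟩
      obtain ⟨i, hi⟩ := (hc (F a) (not_not.mp ha)).2 x (not_le.mp hax)
      refine mem_iUnion.mpr ⟨max i (ρ (c (F a) i) x), i, le_max_left _ _, hi, le_max_right _ _⟩) hpos
    obtain ⟨a, ⟨⟨⟨hadx, _⟩, _⟩, i, hik, hxi, hρi⟩, haN⟩ :=
      hJ.nonempty hK.unc (hJ.pos_diff hK.unc hk (hnull k))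
    refine ⟨k, a, haN, ?_⟩
    apply hJ.down _ hd1X
    rintro b ⟨hb, hbX⟩
    refine ⟨?_, hbX⟩
    rw [← hdx]
    exact ((hb i hik).2 x hxi hρi).mp hadx
  -- fibres have subsets in `A`
  have hredf : ∀ k b, fib F c ρ d k b ∉ J → ∃ a ∈ A, a ∉ J ∧ a \ fib F c ρ d k b ∈ J := by
    intro k b hb
    obtain ⟨a, haA, haJ, ha⟩ := hA.reduct _ hb
    refine ⟨a, haA, haJ, ?_⟩
    by_contra hpos
    have hno : ∀ z ∈ A, (∀ y ∈ z, y ∉ fib F c ρ d k b) → a ∩ z ∈ J := by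
      intro z hz hdis
      by_contra h
      apply ha _ (hA.inter_mem _ haA _ hz) h
      · apply hJ.down _ (hJ.empty hK.unc)
        rintro y ⟨hy1, hy2⟩
        exact hy2 hy1.1
      · apply hJ.down _ (hJ.empty hK.unc)
        rintro y ⟨hy1, hy2⟩
        exact hdis y hy1.2 hy2
    obtain ⟨i, hi⟩ := hJ.cover (ι := ℕ) (by rw [mk_nat]; exact hK.unc)
      (Y := fun i => {y | i ≤ k ∧ ¬ (c (F b) i = c (F y) i ∧
        ∀ x, x < c (F b) i → ρ (c (F b) i) x ≤ k → (b ∈ d x ↔ y ∈ d x))}) (by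
      rintro y ⟨_, hy⟩
      by_contra hcon
      apply hy
      intro i hi
      by_contra h
      exact hcon (mem_iUnion.mpr ⟨i, hi, h⟩)) hpos
    have hik : i ≤ k := by
      obtain ⟨y, _, hy, _⟩ := hJ.nonempty hK.unc hi
      exact hy
    obtain ⟨o, ho⟩ := hJ.cover (ι := Option {x | x < c (F b) i ∧ ρ (c (F b) i) x ≤ k}) (by
        rw [mk_option]
        exact add_lt_of_lt hK.unc.le ((hρ _ k).trans_lt (hlκ k)) (one_lt_aleph0.trans hK.unc))
      (Y := fun o => match o with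
        | none => {y | c (F y) i = c (F b) i}ᶜ
        | some x => if b ∈ d x.1 then (d x.1)ᶜ else d x.1) (by
      rintro y ⟨_, _, hy⟩
      by_contra hcon
      rw [mem_iUnion] at hcon
      push Not at hcon
      apply hy
      refine ⟨?_, ?_⟩
      · have := hcon none
        simp only [mem_compl_iff, mem_ofPred_eq, not_not] at this
        exact this.symm
      · intro x hx hρx
        have := hcon (some ⟨x, hx, hρx⟩)
        simp only at this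
        split_ifs at this with h
        · simp only [mem_compl_iff, not_not] at this
          exact ⟨fun _ => this, fun _ => h⟩
        · exact ⟨fun h' => absurd h' h, fun h' => absurd h' this⟩) hi
    apply ho
    cases o with
    | none =>
      apply hJ.down _ (hno _ (hA.compl_mem _ (hC i (c (F b) i))) (by
        intro y hy hyf
        exact hy (hyf i hik).1.symm))
      rintro y ⟨⟨⟨hy, _⟩, _⟩, hy2⟩
      exact ⟨hy, hy2⟩
    | some x =>
      by_cases hbx : b ∈ d x.1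
      · apply hJ.down _ (hno _ (hA.compl_mem _ (hdA x.1)) (by
          intro y hy hyf
          exact hy (((hyf i hik).2 x.1 x.2.1 x.2.2).mp hbx)))
        rintro y ⟨⟨⟨hy, _⟩, _⟩, hy2⟩
        simp only [if_pos hbx] at hy2
        exact ⟨hy, hy2⟩
      · apply hJ.down _ (hno _ (hdA x.1) (by
          intro y hy hyf
          exact hbx (((hyf i hik).2 x.1 x.2.1 x.2.2).mpr hy)))
        rintro y ⟨⟨⟨hy, _⟩, _⟩, hy2⟩
        simp only [if_neg hbx] at hy2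
        exact ⟨hy, hy2⟩
  -- splitting
  have hsplit : ∀ k (B : Set K), ∃ S : Set K, (∃ a, B = fib F c ρ d k a) → B ∉ J →
      ∃ m b b', S = fib F c ρ d m b ∧ fib F c ρ d m b ∉ J ∧ fib F c ρ d m b' ∉ J ∧
        fib F c ρ d m b ⊆ B ∧ fib F c ρ d m b' ⊆ B ∧
        Disjoint (fib F c ρ d m b) (fib F c ρ d m b') := by
    intro k B
    by_cases hB : (∃ a, B = fib F c ρ d k a) ∧ B ∉ J
    swap
    · exact ⟨∅, fun h1 h2 => absurd ⟨h1, h2⟩ hB⟩
    obtain ⟨⟨a, rfl⟩, hBJ⟩ := hB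
    suffices h : ∃ m b b', fib F c ρ d m b ∉ J ∧ fib F c ρ d m b' ∉ J ∧
        fib F c ρ d m b ⊆ fib F c ρ d k a ∧ fib F c ρ d m b' ⊆ fib F c ρ d k a ∧
        Disjoint (fib F c ρ d m b) (fib F c ρ d m b') by
      obtain ⟨m, b, b', h⟩ := h
      exact ⟨fib F c ρ d m b, fun _ _ => ⟨m, b, b', rfl, h⟩⟩
    by_contra hcon
    have hNall : (⋃ m, {a | fib F c ρ d m a ∈ J}) ∈ J := hJ.iUnionNat hK.unc hnull
    have hYJ := hJ.pos_diff hK.unc (hJ.pos_diff hK.unc hBJ hNall) hcof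
    obtain ⟨b, ⟨⟨hb, hbN⟩, hbc⟩⟩ := hJ.nonempty hK.unc hYJ
    apply hYJ
    apply hJ.down _ (hF.unb (F b))
    rintro b' ⟨⟨hb', hb'N⟩, hb'c⟩
    have hEq : ∀ m, k ≤ m → Eqv F c ρ d m b b' := by
      intro m hkm
      by_contra hne
      apply hcon
      refine ⟨m, b, b', fun h => hbN (mem_iUnion.mpr ⟨m, h⟩),
        fun h => hb'N (mem_iUnion.mpr ⟨m, h⟩), ?_, ?_, ?_⟩
      · intro y hy
        exact Eqv.trans hb (Eqv.mono hkm hy)
      · intro y hy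
        exact Eqv.trans hb' (Eqv.mono hkm hy)
      · rw [Set.disjoint_left]
        intro y hy hy'
        exact hne (Eqv.trans hy (Eqv.symm hy'))
    show F b' ≤ F b
    by_contra hlt
    push Not at hlt
    obtain ⟨n, hn⟩ := (hc (F b') (not_not.mp hb'c)).2 (F b) hlt
    have h1 := (hEq (max k n) (le_max_left _ _) n (le_max_right _ _)).1
    rw [← h1] at hn
    exact absurd ((hc (F b) (not_not.mp hbc)).1 n) (not_lt.mpr hn.le)
  choose S hS using hsplit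
  -- the colouring
  obtain ⟨v, hv⟩ := hJ.pig (ι := Set ℕ) (by
      rw [mk_set, mk_nat]
      exact (power_le_power_left two_ne_zero hl0).trans_lt (hp 0))
    (fun a => {k | a ∈ S k (fib F c ρ d k a)}) hJ.proper
  obtain ⟨a0, ha0A, ha0J, ha0⟩ := hA.reduct _ hv
  obtain ⟨k, a, hfa, hfa0⟩ := hdense a0 ha0A ha0J
  obtain ⟨m, b, b', hSb, hbJ, hb'J, hba, hb'a, hdis⟩ := hS k (fib F c ρ d k a) ⟨a, rfl⟩ hfa
  have hmeet : ∀ e, fib F c ρ d m e ∉ J → fib F c ρ d m e ⊆ fib F c ρ d k a →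
      ∃ y ∈ fib F c ρ d m e, {k | y ∈ S k (fib F c ρ d k y)} = v := by
    intro e he hea
    obtain ⟨a1, ha1A, ha1J, ha1⟩ := hredf m e he
    have h1 : a1 \ a0 ∈ J := by
      apply hJ.down _ (hJ.union hK.unc ha1 hfa0)
      rintro y ⟨hy1, hy2⟩
      by_cases h : y ∈ fib F c ρ d m e
      · exact Or.inr ⟨hea h, hy2⟩
      · exact Or.inl ⟨hy1, h⟩
    obtain ⟨y, ⟨hy1, _, hy2⟩, hy3⟩ :=
      hJ.nonempty hK.unc (hJ.pos_diff hK.unc (ha0 a1 ha1A ha1J h1) ha1)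
    refine ⟨y, ?_, hy2⟩
    by_contra h
    exact hy3 ⟨hy1, h⟩
  obtain ⟨y, hy, hyv⟩ := hmeet b hbJ hba
  obtain ⟨y', hy', hyv'⟩ := hmeet b' hb'J hb'a
  have hfy : fib F c ρ d k y = fib F c ρ d k a := (fib_eq (hba hy)).symm
  have hfy' : fib F c ρ d k y' = fib F c ρ d k a := (fib_eq (hb'a hy')).symm
  have h1 : k ∈ v := by
    rw [← hyv]
    show y ∈ S k (fib F c ρ d k y)
    rw [hfy, hSb]; exact hy
  rw [← hyv'] at h1
  have h2 : y' ∈ S k (fib F c ρ d k y') := h1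
  rw [hfy', hSb] at h2
  exact (Set.disjoint_left.mp hdis) h2 hy'

end Lay86
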